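import Pool.Agent.helper972_pfr.Quant

set_option autoImplicit false
open scoped Pointwise

/-! # The polynomial Freiman-Ruzsa conjecture fails for progressions of arbitrary rank which are
proper, or not too far from `A`

For all `C, c > 0` and all large `K` there is a finite subset `A` of a torsion-free group with
`|A + A| ≤ K |A|` such that, with `T = C K ^ c`, every progression `P` of arbitrary rank, proper or
not, which satisfies one of the following conditions has less than `|A| / T` points in `A`: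
* `N₁ ⋯ N_d ≤ T |A|` (in particular every proper `P` with `|P| ≤ T |A|`);
* `|P + P| ≤ T |A|`;
* `2 ^ d ≤ T` and `|P| ≤ T |A|`;
* `|B + P| ≤ T |A|` for some `B ⊆ A` with at least `|A| / T` points (for instance `B = A`; so in
  particular every `P` which is covered by `T / K` translates of `A`);
* for some `x` a proportion at least `1 / T` of the sums `x + ∑ kᵢ vᵢ`, `0 ≤ kᵢ < Nᵢ`, is in `A`.
The same holds with `T = K ^ (κ log log log K)` for some constant `κ > 0`.

`A` is a ball in a random lattice of dimension `~ log K`. -/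

namespace Pool.Agent.Results.MP_86f7a7_co.ProperProgressions

open H972P

/-- There is a set `A` in a torsion-free group with `|A + A| ≤ K |A|` such that every progression
which is tame with respect to `A` and `T` has less than `|A| / T` points in `A`. -/
def Fails (K T : ℝ) : Prop :=
  ∃ (n : ℕ) (Z : AddSubgroup (Fin n → ℤ)) (A : Set Z),
    (∀ (k : ℕ) (x : Z), k ≠ 0 → k • x = 0 → x = 0) ∧ A.Finite ∧ A.Nonempty ∧
    ((A + A).ncard : ℝ) ≤ K * (A.ncard : ℝ) ∧
    ∀ (d : ℕ) (a : Z) (v : Fin d → Z) (N : Fin d → ℕ), Tame A T a v N →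
      ((A ∩ prog a v N).ncard : ℝ) < T⁻¹ * (A.ncard : ℝ)

theorem tame_mono {G : Type*} [AddCommGroup G] (A : Set G) {T T' : ℝ} (hT : T' ≤ T) {d : ℕ}
    (a : G) (v : Fin d → G) (N : Fin d → ℕ) (h : Tame A T' a v N) : Tame A T a v N := by
  rcases h with h | h | ⟨h1, h⟩ | ⟨B, hB, h1, h⟩ | ⟨x, h⟩
  · exact Or.inl (h.trans (mul_le_mul_of_nonneg_right hT (Nat.cast_nonneg _)))
  · exact Or.inr (Or.inl (h.trans (mul_le_mul_of_nonneg_right hT (Nat.cast_nonneg _))))
  · exact Or.inr (Or.inr (Or.inl ⟨h1.trans hT,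
      h.trans (mul_le_mul_of_nonneg_right hT (Nat.cast_nonneg _))⟩))
  · exact Or.inr (Or.inr (Or.inr (Or.inl ⟨B, hB,
      h1.trans (mul_le_mul_of_nonneg_right hT (Nat.cast_nonneg _)),
      h.trans (mul_le_mul_of_nonneg_right hT (Nat.cast_nonneg _))⟩)))
  · exact Or.inr (Or.inr (Or.inr (Or.inr ⟨x,
      h.trans (mul_le_mul_of_nonneg_right hT (Nat.cast_nonneg _))⟩)))

theorem fails_mono {K T T' : ℝ} (hT' : 0 < T') (hT : T' ≤ T) (h : Fails K T) : Fails K T' := by
  obtain ⟨n, Z, A, htf, hfin, hne, hAA, hmain⟩ := h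
  refine ⟨n, Z, A, htf, hfin, hne, hAA, fun d a v N hN => ?_⟩
  refine (hmain d a v N (tame_mono A hT a v N hN)).trans_le ?_
  exact mul_le_mul_of_nonneg_right (inv_anti₀ hT' hT) (Nat.cast_nonneg _)

theorem result :
    (∀ C c : ℝ, 0 < C → 0 < c → ∃ K₁ : ℝ, ∀ K : ℝ, K₁ ≤ K → Fails K (C * K ^ c)) ∧
    (∃ κ : ℝ, 0 < κ ∧ ∃ K₁ : ℝ, ∀ K : ℝ, K₁ ≤ K →
      Fails K (K ^ (κ * Real.log (Real.log (Real.log K))))) := by
  obtain ⟨κ, hκ, K₁, hq⟩ := quant
  have hmain : ∀ K : ℝ, K₁ ≤ K → Fails K (K ^ (κ * Real.log (Real.log (Real.log K)))) := by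
    intro K hK
    obtain ⟨q, U, hU, hC, hK2, hT1, hT3⟩ := hq K hK
    obtain ⟨Z, A, hfin, hne, hAA, hA⟩ := final hU hC K hK2 _ hT1 hT3
    refine ⟨128 * q, Z, A, ?_, hfin, hne, hAA, hA⟩
    intro k x hk hx
    apply Subtype.ext
    funext i
    have h1 : k • (x : Fin (128 * q) → ℤ) = 0 := by
      rw [← AddSubgroup.coe_nsmul, hx]
      rfl
    have h2 := congrFun h1 i
    rw [Pi.smul_apply, nsmul_eq_mul] at h2
    rcases mul_eq_zero.1 h2 with h | h
    · exact absurd (by exact_mod_cast h) hk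
    · exact h
  refine ⟨fun C c hC hc => ?_, κ, hκ, K₁, hmain⟩
  refine ⟨max K₁ (max C (Real.exp (Real.exp (Real.exp ((c + 1) / κ))))), fun K hK => ?_⟩
  have hKK : K₁ ≤ K := (le_max_left _ _).trans hK
  have hKC : C ≤ K := (le_max_left _ _).trans ((le_max_right _ _).trans hK)
  have hKe : Real.exp (Real.exp (Real.exp ((c + 1) / κ))) ≤ K :=
    (le_max_right _ _).trans ((le_max_right _ _).trans hK)
  have hK0 : 0 < K := (Real.exp_pos _).trans_le hKe
  have hK1 : 1 ≤ K := le_trans (Real.one_le_exp (Real.exp_pos _).le) hKe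
  have hL : Real.exp (Real.exp ((c + 1) / κ)) ≤ Real.log K := by
    rw [Real.le_log_iff_exp_le hK0]; exact hKe
  have hL0 : 0 < Real.log K := (Real.exp_pos _).trans_le hL
  have hM : Real.exp ((c + 1) / κ) ≤ Real.log (Real.log K) := by
    rw [Real.le_log_iff_exp_le hL0]; exact hL
  have hM0 : 0 < Real.log (Real.log K) := (Real.exp_pos _).trans_le hM
  have hl : (c + 1) / κ ≤ Real.log (Real.log (Real.log K)) := by
    rw [Real.le_log_iff_exp_le hM0]; exact hM
  have hexp : c + 1 ≤ κ * Real.log (Real.log (Real.log K)) := by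
    rw [div_le_iff₀ hκ] at hl
    linarith
  have hKc : 0 < K ^ c := Real.rpow_pos_of_pos hK0 c
  refine fails_mono (by positivity) ?_ (hmain K hKK)
  calc C * K ^ c ≤ K * K ^ c := mul_le_mul_of_nonneg_right hKC hKc.le
    _ = K ^ (c + 1) := by rw [Real.rpow_add hK0, Real.rpow_one, mul_comm]
    _ ≤ _ := Real.rpow_le_rpow_of_exponent_le hK1 hexp

end Pool.Agent.Results.MP_86f7a7_co.ProperProgressions
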